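import Pool.Agent.T9h88.IO.Basic

/-!
# Derivations by clauses give short proofs
-/

set_option autoImplicit false

namespace Pool.Agent.T9h71.IO

open Pool.Agent.TH672 (Fm Str upd num digits varStr LogK)
open Pool.Agent.TH672.Form (ren)
open Pool.Agent.TH636.BC
open Pool.Agent.T9h6.BC
open Pool.Agent.TH838.J1549 (step_mono isProof_append)
open Pool.Agent.T9h88.IO

/-! ### adding lines to a proof -/

/-- `φ` can be added to the proof `π` by at most `L` lines; all lines have length at most `B` -/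
def Ad (Γ π : List Fml) (B L : ℕ) (φ : Fml) : Prop :=
  ∃ π', IsProof Γ (π' ++ π) ∧ π'.length ≤ L ∧ (∀ ψ ∈ π' ++ π, sz ψ ≤ B) ∧ φ ∈ π' ++ π

/-- a proof whose lines have length at most `B` -/
def Pr (Γ π : List Fml) (B : ℕ) : Prop := IsProof Γ π ∧ ∀ ψ ∈ π, sz ψ ≤ B

variable {Γ π : List Fml} {B L L1 L2 : ℕ} {φ ψ χ : Fml}

theorem Ad.mono (h : Ad Γ π B L φ) {L' : ℕ} (hL : L ≤ L') : Ad Γ π B L' φ := by
  obtain ⟨π', h1, h2, h3, h4⟩ := h
  exact ⟨π', h1, h2.trans hL, h3, h4⟩

theorem isProof_suffix : ∀ {A : List Fml}, IsProof Γ (A ++ π) → IsProof Γ π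
  | [], h => h
  | _ :: _, ⟨h1, _⟩ => isProof_suffix h1

theorem Ad.pr (h : Ad Γ π B L φ) : Pr Γ π B := by
  obtain ⟨π', h1, h2, h3, h4⟩ := h
  exact ⟨isProof_suffix h1, fun ψ hψ => h3 ψ (List.mem_append_right _ hψ)⟩

theorem Ad.hyp (h : Pr Γ π B) (hφ : φ ∈ π) : Ad Γ π B 0 φ :=
  ⟨[], h.1, le_rfl, h.2, hφ⟩

theorem Ad.one (h : Pr Γ π B) (hs : Step Γ π φ) (hφ : sz φ ≤ B) : Ad Γ π B 1 φ := by
  refine ⟨[φ], ⟨h.1, hs⟩, by simp, ?_, by simp⟩
  intro ψ hψ
  rcases List.mem_cons.1 hψ with rfl | hψ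
  · exact hφ
  · exact h.2 ψ hψ

theorem Ad.ax (h : Pr Γ π B) (hs : φ ∈ Γ) (hφ : sz φ ≤ B) : Ad Γ π B 1 φ := .one h (.inl hs) hφ

theorem Ad.log (h : Pr Γ π B) (hs : LogK φ) (hφ : sz φ ≤ B) : Ad Γ π B 1 φ :=
  .one h (.inr (.inl hs)) hφ

theorem insert_proof : ∀ {A C : List Fml}, IsProof Γ (A ++ π) → IsProof Γ (C ++ π) →
    IsProof Γ (A ++ (C ++ π))
  | [], _, _, h => h
  | _ :: _, _, ⟨h1, h2⟩, h => ⟨insert_proof h1 h, step_mono h2 fun x hx => by
      rcases List.mem_append.1 hx with hx | hx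
      · exact List.mem_append_left _ hx
      · exact List.mem_append_right _ (List.mem_append_right _ hx)⟩

theorem Ad.mp (h1 : Ad Γ π B L1 (φ.imp ψ)) (h2 : Ad Γ π B L2 φ) : Ad Γ π B (L1 + L2 + 1) ψ := by
  obtain ⟨π1, a1, a2, a3, a4⟩ := h1
  obtain ⟨π2, b1, b2, b3, b4⟩ := h2
  refine ⟨ψ :: (π1 ++ π2), ?_, ?_, ?_, by simp⟩
  · rw [List.cons_append, List.append_assoc]
    refine ⟨insert_proof a1 b1, .inr (.inr (.inl ⟨φ, ?_, ?_⟩))⟩
    · exact List.mem_append_right _ b4
    · rcases List.mem_append.1 a4 with h | h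
      · exact List.mem_append_left _ h
      · exact List.mem_append_right _ (List.mem_append_right _ h)
  · simp only [List.length_cons, List.length_append]; omega
  · intro ξ hξ
    rw [List.cons_append, List.append_assoc] at hξ
    rcases List.mem_cons.1 hξ with rfl | hξ
    · have := a3 _ a4
      rw [sz_imp] at this; omega
    · rcases List.mem_append.1 hξ with hξ | hξ
      · exact a3 _ (List.mem_append_left _ hξ)
      · exact b3 _ hξ

/-- from `φ` infer `χ → φ` -/
theorem Ad.k (h : Ad Γ π B L φ) (hs : 2 * sz φ + sz χ + 8 ≤ B) : Ad Γ π B (L + 2) (χ.imp φ) := by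
  refine ((Ad.log h.pr (LogK.k φ χ) ?_).mp h).mono (by omega)
  simp only [sz_imp]; omega

/-- from `χ → φ → ψ` and `χ → φ` infer `χ → ψ` -/
theorem Ad.s (h1 : Ad Γ π B L1 (χ.imp (φ.imp ψ))) (h2 : Ad Γ π B L2 (χ.imp φ))
    (hs : 3 * sz χ + 2 * sz φ + 2 * sz ψ + 24 ≤ B) : Ad Γ π B (L1 + L2 + 3) (χ.imp ψ) := by
  refine (((Ad.log h1.pr (LogK.s χ φ ψ) ?_).mp h1).mp h2).mono (by omega)
  simp only [sz_imp]; omega

theorem Ad.inst {x y : ℕ} (h : Ad Γ π B L (.all x φ)) (hf : φ.FreeFor y x)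
    (hs : sz φ + x + 9 + sz (φ.subst x y) ≤ B) : Ad Γ π B (L + 2) (φ.subst x y) := by
  refine ((Ad.log h.pr (LogK.inst x y φ hf) ?_).mp h).mono (by omega)
  simp only [sz_imp, sz_all]; omega

theorem Ad.of_dv {k : ℕ} (hπ : Pr Γ π B) {B' : ℕ} (h : Dv Γ k B' L φ) (hB : B' ≤ B) :
    Ad Γ π B L φ := by
  obtain ⟨π', h1, h2, h3⟩ := h
  refine ⟨φ :: π', isProof_append h1 hπ.1, h2, ?_, by simp⟩
  intro ψ hψ
  rcases List.mem_append.1 hψ with hψ | hψ
  · exact (h3 ψ hψ).sz.trans hB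
  · exact hπ.2 ψ hψ

theorem len_strs_le : ∀ {π : List Fml}, (∀ ψ ∈ π, sz ψ ≤ B) → (strs π).length ≤ π.length * B
  | [], _ => by simp [strs]
  | φ :: π, h => by
    have h1 := len_strs_le (π := π) fun ψ hψ => h ψ (List.mem_cons_of_mem _ hψ)
    have h2 := h φ (by simp)
    rw [strs_cons_len, List.length_cons, Nat.add_mul, one_mul]
    omega

theorem Pr.proves (h : Pr Γ π B) (hφ : φ ∈ π) : Proves Γ (π.length * B) φ := by
  obtain ⟨s, t, rfl⟩ := List.append_of_mem hφ
  refine ⟨t, isProof_suffix h.1, ?_⟩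
  refine (len_strs_le (B := B) fun ψ hψ => h.2 ψ (List.mem_append_right _ hψ)).trans ?_
  refine Nat.mul_le_mul_right _ ?_
  rw [List.length_append]; omega

/-! ### propositional rules -/

theorem rule_left : ∃ C, ∀ (Γ : List Fml) (M : ℕ) (a b : Fml), sz a ≤ M → sz b ≤ M →
    ∃ k, Dv Γ k (C * (M + 1)) C (.imp (.and a b) a) := by
  obtain ⟨C, _, hC⟩ := prp_rule (.imp (.and (pp 0) (pp 1)) (pp 0)) (by
    intro S v; simp only [Fm.sat_imp, Fm.sat_and]; tauto)
  refine ⟨C, fun Γ M a b h1 h2 => ⟨qd a + qd b + C, ?_⟩⟩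
  have b1 : Both (qd a + qd b) a := (both_qd a).mono (by omega)
  have b2 : Both (qd a + qd b) b := (both_qd b).mono (by omega)
  exact hC Γ (qd a + qd b) M (fo a b a a) (fo_both b1 b2 b1 b1) (fo_sz h1 h2 h1 h1)

theorem rule_right : ∃ C, ∀ (Γ : List Fml) (M : ℕ) (a b : Fml), sz a ≤ M → sz b ≤ M →
    ∃ k, Dv Γ k (C * (M + 1)) C (.imp (.and a b) b) := by
  obtain ⟨C, _, hC⟩ := prp_rule (.imp (.and (pp 0) (pp 1)) (pp 1)) (by
    intro S v; simp only [Fm.sat_imp, Fm.sat_and]; tauto)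
  refine ⟨C, fun Γ M a b h1 h2 => ⟨qd a + qd b + C, ?_⟩⟩
  have b1 : Both (qd a + qd b) a := (both_qd a).mono (by omega)
  have b2 : Both (qd a + qd b) b := (both_qd b).mono (by omega)
  exact hC Γ (qd a + qd b) M (fo a b a a) (fo_both b1 b2 b1 b1) (fo_sz h1 h2 h1 h1)

theorem rule_syl' : ∃ C, ∀ (Γ : List Fml) (M : ℕ) (a b c : Fml), sz a ≤ M → sz b ≤ M → sz c ≤ M →
    ∃ k, Dv Γ k (C * (M + 1)) C (.imp (.imp a b) (.imp (.imp b c) (.imp a c))) := by
  obtain ⟨C, _, hC⟩ := rule_syl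
  refine ⟨C, fun Γ M a b c h1 h2 h3 => ⟨qd a + qd b + qd c + C, ?_⟩⟩
  have b1 : Both (qd a + qd b + qd c) a := (both_qd a).mono (by omega)
  have b2 : Both (qd a + qd b + qd c) b := (both_qd b).mono (by omega)
  have b3 : Both (qd a + qd b + qd c) c := (both_qd c).mono (by omega)
  exact hC Γ _ M a b c b1 b2 b3 h1 h2 h3

/-- the members of the context -/
theorem proj : ∃ C, ∀ (Γ π : List Fml) (B : ℕ), Pr Γ π B → ∀ N : List At,
    C * (sz (ctx N) + 1) ≤ B → ∀ a ∈ N,
    Ad Γ π B (C * N.length) ((ctx N).imp (a.ren (· + VB)).fm) := by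
  obtain ⟨C1, h1⟩ := rule_left
  obtain ⟨C2, h2⟩ := rule_right
  obtain ⟨C3, h3⟩ := rule_syl'
  refine ⟨C1 + C2 + C3 + 2, fun Γ π B hπ N => ?_⟩
  induction N with
  | nil => intro _ a ha; simp at ha
  | cons b N ih =>
    intro hB a ha
    have hs : sz (ctx (b :: N)) = 20 + sz (b.ren (· + VB)).fm + sz (ctx N) := by
      show sz (Fm.and _ _) = _
      rw [sz_and]
    set M := sz (ctx (b :: N)) with hM
    have c1 : C1 * (M + 1) ≤ B := (Nat.mul_le_mul_right _ (by omega)).trans hB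
    have c2 : C2 * (M + 1) ≤ B := (Nat.mul_le_mul_right _ (by omega)).trans hB
    have c3 : C3 * (M + 1) ≤ B := (Nat.mul_le_mul_right _ (by omega)).trans hB
    rw [List.length_cons]
    rcases List.mem_cons.1 ha with rfl | ha
    · obtain ⟨k, hk⟩ := h1 Γ M (a.ren (· + VB)).fm (ctx N) (by omega) (by omega)
      exact (Ad.of_dv hπ hk c1).mono (by nlinarith [Nat.zero_le N.length])
    · obtain ⟨k, hk⟩ := h2 Γ M (b.ren (· + VB)).fm (ctx N) (by omega) (by omega)
      have e1 := ih ((Nat.mul_le_mul_left _ (by omega)).trans hB) a ha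
      have e2 : sz (a.ren (· + VB)).fm ≤ M := by
        have : ∀ N : List At, a ∈ N → sz (a.ren (· + VB)).fm ≤ sz (ctx N) := by
          intro N
          induction N with
          | nil => intro h; simp at h
          | cons c N ih =>
            intro h
            have : sz (ctx (c :: N)) = 20 + sz (c.ren (· + VB)).fm + sz (ctx N) := by
              show sz (Fm.and _ _) = _
              rw [sz_and]
            rcases List.mem_cons.1 h with rfl | h
            · omega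
            · have := ih h; omega
        have := this N ha
        omega
      obtain ⟨k', hk'⟩ := h3 Γ M (ctx (b :: N)) (ctx N) (a.ren (· + VB)).fm le_rfl (by omega) e2
      refine (((Ad.of_dv hπ hk' c3).mp (Ad.of_dv hπ hk c2)).mp e1).mono ?_
      rw [Nat.mul_add, mul_one]
      omega

/-! ### instances of clauses -/

/-- renaming of a clause -/
def Cl.ren (g : ℕ → ℕ) (c : Cl) : Cl := ⟨c.prem.map (At.ren g), c.concl.ren g⟩

theorem at_subst (x y : ℕ) (a : At) : a.fm.subst x y = (a.ren (ren x y)).fm := by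
  cases a <;> rfl

theorem at_freeFor (x y : ℕ) (a : At) : a.fm.FreeFor y x := by
  cases a <;> trivial

theorem at_ren_ren (f g : ℕ → ℕ) (a : At) : (a.ren f).ren g = a.ren fun x => g (f x) := by
  cases a <;> rfl

theorem at_ren_congr {f g : ℕ → ℕ} {M : ℕ} {a : At} (ha : a.lt M) (h : ∀ x < M, f x = g x) :
    a.ren f = a.ren g := by
  cases a with
  | zero x => simp only [At.ren, h x ha]
  | succ x y => simp only [At.ren, h x ha.1, h y ha.2]
  | add x y z => simp only [At.ren, h x ha.1, h y ha.2.1, h z ha.2.2]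
  | mul x y z => simp only [At.ren, h x ha.1, h y ha.2.1, h z ha.2.2]
  | op i x y z w => simp only [At.ren, h x ha.1, h y ha.2.1, h z ha.2.2.1, h w ha.2.2.2]

theorem at_ren_id (a : At) : a.ren (fun x => x) = a := by cases a <;> rfl

/-- the formula of premises and conclusion -/
def bd (l : List At) (q : At) : Fml := l.foldr (fun p f => .imp p.fm f) q.fm

theorem bd_cons (p : At) (l : List At) (q : At) : bd (p :: l) q = .imp p.fm (bd l q) := rfl

theorem bd_subst (x y : ℕ) (q : At) : ∀ l : List At,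
    (bd l q).subst x y = bd (l.map (At.ren (ren x y))) (q.ren (ren x y))
  | [] => at_subst x y q
  | p :: l => by
    rw [bd_cons, List.map_cons, bd_cons, Fm.subst, at_subst, bd_subst x y q l]

theorem bd_freeFor (x y : ℕ) (q : At) : ∀ l : List At, (bd l q).FreeFor y x
  | [] => at_freeFor x y q
  | p :: l => ⟨at_freeFor x y p, bd_freeFor x y q l⟩

theorem cl_subst {x y : ℕ} {φ : Fml} : ∀ {n : ℕ}, n ≤ x → (cl φ n).subst x y = cl (φ.subst x y) n
  | 0, _ => rfl
  | n + 1, h => by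
    show (Fm.all n (cl φ n)).subst x y = Fm.all n _
    rw [Fm.subst, if_neg (by omega), cl_subst (by omega)]

theorem cl_freeFor {x y : ℕ} {φ : Fml} (hφ : φ.FreeFor y x) : ∀ {n : ℕ}, n ≤ y →
    (cl φ n).FreeFor y x
  | 0, _ => hφ
  | n + 1, h => .inr (.inr ⟨by omega, cl_freeFor hφ (by omega)⟩)

theorem sz_cl (φ : Fml) : ∀ n : ℕ, sz (cl φ n) ≤ sz φ + n * (n + 5)
  | 0 => by simp [cl]
  | n + 1 => by
    have := sz_cl φ n
    show sz (Fm.all n (cl φ n)) ≤ _
    rw [sz_all]
    nlinarith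

theorem sz_at_ren {g : ℕ → ℕ} {G : ℕ} (hg : ∀ x, g x ≤ G) (a : At) :
    sz (a.ren g).fm ≤ sz a.fm * (G + 1) := by
  cases a with
  | zero x => have := hg x; simp only [At.ren, At.fm, sz_zero]; nlinarith
  | succ x y => have := hg x; have := hg y; simp only [At.ren, At.fm, sz_succ]; nlinarith
  | add x y z =>
    have := hg x; have := hg y; have := hg z
    simp only [At.ren, At.fm, sz_add]; nlinarith
  | mul x y z =>
    have := hg x; have := hg y; have := hg z
    simp only [At.ren, At.fm, sz_mul]; nlinarith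
  | op i x y z w =>
    have := hg x; have := hg y; have := hg z; have := hg w
    simp only [At.ren, At.fm, sz_op]; nlinarith

theorem sz_bd_ren {g : ℕ → ℕ} {G : ℕ} (hg : ∀ x, g x ≤ G) (q : At) : ∀ l : List At,
    sz (bd (l.map (At.ren g)) (q.ren g)) ≤ sz (bd l q) * (G + 1)
  | [] => sz_at_ren hg q
  | p :: l => by
    have h1 := sz_at_ren hg p
    have h2 := sz_bd_ren hg q l
    rw [List.map_cons, bd_cons, bd_cons, sz_imp, sz_imp]
    nlinarith

theorem len_le_bd (q : At) : ∀ l : List At, l.length ≤ sz (bd l q)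
  | [] => by simp
  | p :: l => by
    have := len_le_bd q l
    rw [bd_cons, sz_imp, List.length_cons]; omega

/-- the renaming of the variables from `n` on -/
def gr (ρ : ℕ → ℕ) (n u : ℕ) : ℕ := if n ≤ u then ρ u + VB else u

theorem gr_step (ρ : ℕ → ℕ) {n : ℕ} (hn : n < VB) :
    (fun u => ren n (ρ n + VB) (gr ρ (n + 1) u)) = gr ρ n := by
  funext u
  unfold ren gr
  by_cases h1 : n + 1 ≤ u
  · rw [if_pos h1, if_neg (by omega), if_pos (by omega)]
  · rw [if_neg h1]
    by_cases h2 : u = n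
    · subst h2; rw [if_pos rfl, if_pos le_rfl]
    · rw [if_neg h2, if_neg (by omega)]

theorem chain {c : Cl} {ρ : ℕ → ℕ} {M D : ℕ} (hρ : ∀ x, ρ x < M) (hc : c.Ok)
    (hD : sz c.body ≤ D) (hB : 2 * (D * (M + VB + 1)) + 8000 ≤ B) (h : Ad Γ π B L c.fm) :
    ∀ j n, n + j = VB → Ad Γ π B (L + 2 * j)
      (cl (bd (c.prem.map (At.ren (gr ρ n))) (c.concl.ren (gr ρ n))) n) := by
  have hsz : ∀ n ≤ VB, sz (cl (bd (c.prem.map (At.ren (gr ρ n))) (c.concl.ren (gr ρ n))) n) ≤
      D * (M + VB + 1) + 3900 := by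
    intro n hn
    have hg : ∀ x, gr ρ n x ≤ M + VB := by
      intro x
      have := hρ x
      unfold gr
      split_ifs <;> omega
    have h1 := sz_bd_ren hg c.concl c.prem
    have h2 : sz (bd c.prem c.concl) * (M + VB + 1) ≤ D * (M + VB + 1) :=
      Nat.mul_le_mul_right _ hD
    have h3 := sz_cl (bd (c.prem.map (At.ren (gr ρ n))) (c.concl.ren (gr ρ n))) n
    have h4 : n * (n + 5) ≤ 60 * 65 := by
      unfold VB at hn; exact Nat.mul_le_mul hn (by omega)
    omega
  intro j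
  induction j with
  | zero =>
    intro n hn
    have hn' : n = VB := by omega
    subst hn'
    have e1 : c.prem.map (At.ren (gr ρ VB)) = c.prem := by
      conv_rhs => rw [← List.map_id c.prem]
      refine List.map_congr_left fun p hp => ?_
      rw [id, at_ren_congr (g := fun x => x) (hc.1 p hp), at_ren_id]
      intro x hx
      unfold gr
      rw [if_neg (by omega)]
    have e2 : c.concl.ren (gr ρ VB) = c.concl := by
      rw [at_ren_congr (g := fun x => x) hc.2, at_ren_id]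
      intro x hx
      unfold gr
      rw [if_neg (by omega)]
    rw [e1, e2]
    exact h
  | succ j ih =>
    intro n hn
    have h1 := ih (n + 1) (by omega)
    have hn' : n < VB := by omega
    set X := bd (c.prem.map (At.ren (gr ρ (n + 1)))) (c.concl.ren (gr ρ (n + 1))) with hX
    have h2 : cl (X.subst n (ρ n + VB)) n = cl (bd (c.prem.map (At.ren (gr ρ n)))
        (c.concl.ren (gr ρ n))) n := by
      congr 1
      rw [hX, bd_subst, List.map_map]
      congr 1
      · refine List.map_congr_left fun p hp => ?_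
        rw [Function.comp_apply, at_ren_ren, gr_step ρ hn']
      · rw [at_ren_ren, gr_step ρ hn']
    have h3 : (cl X n).subst n (ρ n + VB) = cl (bd (c.prem.map (At.ren (gr ρ n)))
        (c.concl.ren (gr ρ n))) n := by
      rw [cl_subst le_rfl, h2]
    have h4 : Ad Γ π B (L + 2 * j) (.all n (cl X n)) := h1
    have h5 := Ad.inst (y := ρ n + VB) h4 (cl_freeFor (bd_freeFor _ _ _ _) (by omega)) (by
      rw [h3]
      have k1 := hsz n (by omega)
      have k2 := hsz (n + 1) (by omega)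
      have k3 : sz (cl X (n + 1)) = 4 + (n + 1) + sz (cl X n) := sz_all n _
      unfold VB at hn'
      rw [← hX, k3] at k2
      omega)
    rw [h3] at h5
    exact h5.mono (by omega)

/-- modus ponens for the premises -/
theorem mps {q : At} : ∀ {l : List At} {L : ℕ}, Ad Γ π B L (χ.imp (bd l q)) →
    (∀ p ∈ l, Ad Γ π B 0 (χ.imp p.fm)) → 3 * sz χ + 2 * sz (bd l q) + 24 ≤ B →
    Ad Γ π B (L + 3 * l.length) (χ.imp q.fm)
  | [], _, h, _, _ => h
  | p :: l, L, h, hp, hB => by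
    rw [bd_cons] at h hB
    rw [sz_imp] at hB
    have h1 := h.s (hp p (by simp)) (by omega)
    refine (mps (l := l) h1 (fun p hp' => hp p (List.mem_cons_of_mem _ hp')) (by omega)).mono ?_
    rw [List.length_cons]; omega

/-! ### lists of derived atoms -/

/-- every member of the list is in `N` or follows from later members by a clause -/
def DL (Cs : List Cl) (N : List At) (M : ℕ) : List At → Prop
  | [] => True
  | a :: l => DL Cs N M l ∧ (a ∈ N ∨ ∃ c ∈ Cs, ∃ ρ : ℕ → ℕ, (∀ x, ρ x < M) ∧ a = c.concl.ren ρ ∧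
      ∀ p ∈ c.prem, p.ren ρ ∈ l)

/-- the atoms with the shape of `q` -/
def shape (q : At) (t : ℕ × ℕ × ℕ × ℕ) : At :=
  match q with
  | .zero _ => .zero t.1
  | .succ _ _ => .succ t.1 t.2.1
  | .add _ _ _ => .add t.1 t.2.1 t.2.2.1
  | .mul _ _ _ => .mul t.1 t.2.1 t.2.2.1
  | .op i _ _ _ _ => .op i t.1 t.2.1 t.2.2.1 t.2.2.2

/-- the quadruples -/
def quad (M : ℕ) : List (ℕ × ℕ × ℕ × ℕ) :=
  (List.range M) ×ˢ ((List.range M) ×ˢ ((List.range M) ×ˢ (List.range M)))

theorem mem_quad {M a b c d : ℕ} (ha : a < M) (hb : b < M) (hc : c < M) (hd : d < M) :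
    (a, b, c, d) ∈ quad M := by
  unfold quad
  simp only [List.mem_product, List.mem_range]
  exact ⟨ha, hb, hc, hd⟩

theorem len_quad (M : ℕ) : (quad M).length = M * (M * (M * M)) := by
  unfold quad
  simp only [List.length_product, List.length_range]

theorem ren_shape {M : ℕ} {ρ : ℕ → ℕ} (hρ : ∀ x, ρ x < M) (q : At) :
    ∃ t ∈ quad M, q.ren ρ = shape q t := by
  cases q with
  | zero x => exact ⟨_, mem_quad (hρ x) (hρ x) (hρ x) (hρ x), rfl⟩
  | succ x y => exact ⟨_, mem_quad (hρ x) (hρ y) (hρ x) (hρ x), rfl⟩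
  | add x y z => exact ⟨_, mem_quad (hρ x) (hρ y) (hρ z) (hρ x), rfl⟩
  | mul x y z => exact ⟨_, mem_quad (hρ x) (hρ y) (hρ z) (hρ x), rfl⟩
  | op i x y z w => exact ⟨_, mem_quad (hρ x) (hρ y) (hρ z) (hρ w), rfl⟩

/-- all atoms that may be derived -/
def allAt (Cs : List Cl) (N : List At) (M : ℕ) : List At :=
  N ++ Cs.flatMap fun c => (quad M).map (shape c.concl)

theorem len_allAt (Cs : List Cl) (N : List At) (M : ℕ) :
    (allAt Cs N M).length = N.length + Cs.length * (M * (M * (M * M))) := by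
  unfold allAt
  rw [List.length_append]
  congr 1
  induction Cs with
  | nil => simp
  | cons c Cs ih =>
    rw [List.flatMap_cons, List.length_append, ih, List.length_map, len_quad, List.length_cons]
    ring

theorem dl_sub {Cs : List Cl} {N : List At} {M : ℕ} : ∀ {l : List At}, DL Cs N M l →
    ∀ a ∈ l, a ∈ allAt Cs N M
  | [], _, a, ha => by simp at ha
  | b :: l, ⟨h1, h2⟩, a, ha => by
    rcases List.mem_cons.1 ha with rfl | ha
    · rcases h2 with h2 | ⟨c, hc, ρ, hρ, rfl, _⟩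
      · exact List.mem_append_left _ h2
      · refine List.mem_append_right _ (List.mem_flatMap.2 ⟨c, hc, ?_⟩)
        obtain ⟨t, ht, e⟩ := ren_shape hρ c.concl
        exact List.mem_map.2 ⟨t, ht, e.symm⟩
    · exact dl_sub h1 a ha

theorem exists_dl (Cs : List Cl) (N : List At) (M : ℕ) : ∃ l : List At, DL Cs N M l ∧
    l.length ≤ (allAt Cs N M).length ∧ ∀ q, Der Cs N M q → q ∈ l := by
  have hlen : ∀ l : List At, DL Cs N M l → l.Nodup → l.length ≤ (allAt Cs N M).length :=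
    fun l h1 h2 => (List.subperm_of_subset h2 (dl_sub h1)).length_le
  have key : ∀ k, ∀ l : List At, DL Cs N M l → l.Nodup → (allAt Cs N M).length - l.length = k →
      ∃ l' : List At, DL Cs N M l' ∧ l'.Nodup ∧ (∀ a ∈ N, a ∈ l') ∧ ∀ c ∈ Cs, ∀ ρ : ℕ → ℕ,
        (∀ x, ρ x < M) → (∀ p ∈ c.prem, p.ren ρ ∈ l') → c.concl.ren ρ ∈ l' := by
    intro k
    induction k using Nat.strong_induction_on with
    | _ k ih =>
      intro l h1 h2 h3
      have step : ∀ a, a ∉ l → DL Cs N M (a :: l) → ∃ l' : List At, DL Cs N M l' ∧ l'.Nodup ∧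
          (∀ a ∈ N, a ∈ l') ∧ ∀ c ∈ Cs, ∀ ρ : ℕ → ℕ,
          (∀ x, ρ x < M) → (∀ p ∈ c.prem, p.ren ρ ∈ l') → c.concl.ren ρ ∈ l' := by
        intro a ha h4
        have h5 : (a :: l).Nodup := List.nodup_cons.2 ⟨ha, h2⟩
        have h6 := hlen _ h4 h5
        rw [List.length_cons] at h6
        exact ih ((allAt Cs N M).length - (a :: l).length) (by rw [List.length_cons]; omega)
          (a :: l) h4 h5 rfl
      by_cases h4 : ∀ a ∈ N, a ∈ l
      · by_cases h5 : ∀ c ∈ Cs, ∀ ρ : ℕ → ℕ,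
          (∀ x, ρ x < M) → (∀ p ∈ c.prem, p.ren ρ ∈ l) → c.concl.ren ρ ∈ l
        · exact ⟨l, h1, h2, h4, h5⟩
        · push Not at h5
          obtain ⟨c, hc, ρ, hρ, h6, h7⟩ := h5
          exact step _ h7 ⟨h1, .inr ⟨c, hc, ρ, hρ, rfl, h6⟩⟩
      · push Not at h4
        obtain ⟨a, ha, h5⟩ := h4
        exact step a h5 ⟨h1, .inl ha⟩
  obtain ⟨l, h1, h2, h3, h4⟩ := key _ [] trivial List.nodup_nil rfl
  refine ⟨l, h1, hlen l h1 h2, fun q hq => ?_⟩
  induction hq with
  | base h => exact h3 _ h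
  | step ρ hc hρ _ ih => exact h4 _ hc ρ hρ ih

/-- the size of the clauses -/
def szs (Cs : List Cl) : ℕ := (Cs.map fun c => sz c.fm).sum

theorem le_szs {Cs : List Cl} {c : Cl} (h : c ∈ Cs) : sz c.fm ≤ szs Cs :=
  List.single_le_sum (by simp) _ (List.mem_map.2 ⟨c, h, rfl⟩)

theorem sz_le_cl (φ : Fml) : ∀ n : ℕ, sz φ ≤ sz (cl φ n)
  | 0 => le_rfl
  | n + 1 => by
    have := sz_le_cl φ n
    show _ ≤ sz (Fm.all n (cl φ n))
    rw [sz_all]; omega

theorem main {C : ℕ} (hC : ∀ (Γ π : List Fml) (B : ℕ), Pr Γ π B → ∀ N : List At,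
    C * (sz (ctx N) + 1) ≤ B → ∀ a ∈ N,
    Ad Γ π B (C * N.length) ((ctx N).imp (a.ren (· + VB)).fm))
    {Cs : List Cl} (hCs : ∀ c ∈ Cs, c.Ok) (hΓ : ∀ c ∈ Cs, c.fm ∈ Γ) {N : List At} {M : ℕ}
    (hB : (C + 3) * (sz (ctx N) + 1) + 2 * (szs Cs * (M + VB + 1)) + 8000 + szs Cs ≤ B) :
    ∀ l : List At, DL Cs N M l → ∃ π, Pr Γ π B ∧
      π.length ≤ l.length * (C * N.length + 200 + 3 * szs Cs) ∧
      ∀ a ∈ l, (ctx N).imp (a.ren (· + VB)).fm ∈ π := by
  intro l
  induction l with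
  | nil => exact fun _ => ⟨[], ⟨trivial, by simp⟩, by simp, by simp⟩
  | cons a l ih =>
    rintro ⟨h1, h2⟩
    obtain ⟨π, e1, e2, e3⟩ := ih h1
    have key : Ad Γ π B (C * N.length + 200 + 3 * szs Cs) ((ctx N).imp (a.ren (· + VB)).fm) := by
      rcases h2 with h2 | ⟨c, hc, ρ, hρ, rfl, h3⟩
      · refine (hC Γ π B e1 N ?_ a h2).mono (by omega)
        nlinarith
      · have k0 := le_szs hc
        have k1 : sz c.body ≤ szs Cs := (sz_le_cl c.body VB).trans k0
        have k2 : Ad Γ π B 1 c.fm := .ax e1 (hΓ c hc) (by omega)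
        have k3 := chain hρ (hCs c hc) k1 (by omega) k2 VB 0 (by omega)
        have k4 : cl (bd (c.prem.map (At.ren (gr ρ 0))) (c.concl.ren (gr ρ 0))) 0 =
          bd (c.prem.map (At.ren (gr ρ 0))) (c.concl.ren (gr ρ 0)) := rfl
        rw [k4] at k3
        have k5 : sz (bd (c.prem.map (At.ren (gr ρ 0))) (c.concl.ren (gr ρ 0))) ≤
            szs Cs * (M + VB + 1) := by
          have hg : ∀ x, gr ρ 0 x ≤ M + VB := by
            intro x
            have := hρ x
            unfold gr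
            split_ifs <;> omega
          exact (sz_bd_ren hg c.concl c.prem).trans (Nat.mul_le_mul_right _ k1)
        have k6 := Ad.k (χ := ctx N) k3 (by nlinarith)
        have k7 : ∀ p : At, p.ren (gr ρ 0) = (p.ren ρ).ren (· + VB) := fun p => by
          rw [at_ren_ren]; rfl
        have k8 := mps k6 (fun p hp => by
          obtain ⟨p', hp', rfl⟩ := List.mem_map.1 hp
          rw [k7]
          exact .hyp e1 (e3 _ (h3 p' hp'))) (by nlinarith)
        rw [k7] at k8
        refine k8.mono ?_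
        have k9 := (len_le_bd c.concl c.prem).trans k1
        rw [List.length_map]
        have : VB = 60 := rfl
        omega
    obtain ⟨π', f1, f2, f3, f4⟩ := key
    refine ⟨π' ++ π, ⟨f1, f3⟩, ?_, ?_⟩
    · rw [List.length_append, List.length_cons, Nat.add_mul, one_mul]
      omega
    · intro b hb
      rcases List.mem_cons.1 hb with rfl | hb
      · exact f4
      · exact List.mem_append_right _ (e3 b hb)

theorem len_le_ctx : ∀ N : List At, N.length ≤ sz (ctx N)
  | [] => by simp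
  | a :: N => by
    have := len_le_ctx N
    show _ ≤ sz (Fm.and _ _)
    rw [sz_and, List.length_cons]; omega

/-- (S2) derivations by clauses give short proofs -/
theorem sEngine : SEngine := by
  obtain ⟨C, hC⟩ := proj
  intro Cs hCs
  refine ⟨(1 + Cs.length) + (C + 200 + 3 * szs Cs) + (C + 3 + 200 * szs Cs + 8000) + 6,
    fun Γ N M q hΓ hN hq => ?_⟩
  obtain ⟨l, h1, h2, h3⟩ := exists_dl Cs N M
  set s := sz (ctx N) with hs
  set X := M + s with hX
  have hBB : (C + 3) * (s + 1) + 2 * (szs Cs * (M + VB + 1)) + 8000 + szs Cs ≤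
      (C + 3 + 200 * szs Cs + 8000) * (X + 2) := by
    have : VB = 60 := rfl
    rw [this]
    nlinarith [Nat.zero_le (C * M), Nat.zero_le (szs Cs * s), Nat.zero_le (szs Cs * M)]
  obtain ⟨π, e1, e2, e3⟩ := main hC hCs hΓ hBB l h1
  refine (e1.proves (e3 q (h3 q hq))).mono ?_
  have g1 : (allAt Cs N M).length ≤ (1 + Cs.length) * (X + 2) ^ 4 := by
    rw [len_allAt]
    have g2 : N.length ≤ (X + 2) ^ 4 := by
      have := len_le_ctx N
      calc N.length ≤ X + 2 := by omega
        _ ≤ (X + 2) ^ 4 := Nat.le_self_pow (by norm_num) _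
    have g3 : M * (M * (M * M)) ≤ (X + 2) ^ 4 := by
      calc M * (M * (M * M)) = M ^ 4 := by ring
        _ ≤ (X + 2) ^ 4 := Nat.pow_le_pow_left (by omega) 4
    nlinarith [Nat.mul_le_mul_left Cs.length g3]
  have g4 : C * N.length + 200 + 3 * szs Cs ≤ (C + 200 + 3 * szs Cs) * (X + 2) := by
    have := len_le_ctx N
    have g5 : C * N.length ≤ C * (X + 2) := Nat.mul_le_mul_left _ (by omega)
    nlinarith [Nat.zero_le (szs Cs * X)]
  calc π.length * ((C + 3 + 200 * szs Cs + 8000) * (X + 2))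
      ≤ (((1 + Cs.length) * (X + 2) ^ 4) * ((C + 200 + 3 * szs Cs) * (X + 2))) *
        ((C + 3 + 200 * szs Cs + 8000) * (X + 2)) := by
        refine Nat.mul_le_mul_right _ (e2.trans ?_)
        exact Nat.mul_le_mul (h2.trans g1) g4
    _ = (1 + Cs.length) * (C + 200 + 3 * szs Cs) * (C + 3 + 200 * szs Cs + 8000) *
        (X + 2) ^ 6 := by ring
    _ ≤ pb (1 + Cs.length) X * pb (C + 200 + 3 * szs Cs) X *
        pb (C + 3 + 200 * szs Cs + 8000) X * pb 6 X := by
        refine Nat.mul_le_mul (Nat.mul_le_mul (Nat.mul_le_mul ?_ ?_) ?_) le_rfl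
        · exact const_le_pb _ _
        · exact const_le_pb _ _
        · exact const_le_pb _ _
    _ = pb ((1 + Cs.length) + (C + 200 + 3 * szs Cs) + (C + 3 + 200 * szs Cs + 8000) + 6) X := by
        rw [pb_mul, pb_mul, pb_mul]

end Pool.Agent.T9h71.IO
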