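import Pool.Agent.T9h88.IO.Asm2
import Pool.Agent.T9h58.IO.Str
import Pool.Agent.T9h18.IO.Script

/-!
# Brute force
-/

set_option autoImplicit false

namespace Pool.Agent.T9h71.IO

open Pool.Agent.TH672 (Fm Str upd num digits varStr LogK)
open Pool.Agent.TH636.BC
open Pool.Agent.T9h6.BC (sz cl)
open Pool.Agent.T9h88.IO

theorem len_le_foldl : ∀ (σ : List Bool) (b : ℕ),
    σ.length + b ≤ σ.foldl (fun n b => 2 * n + if b then 2 else 1) b
  | [], b => by simp
  | c :: σ, b => by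
    have := len_le_foldl σ (2 * b + if c then 2 else 1)
    rw [List.foldl_cons, List.length_cons]
    refine le_trans ?_ this
    split_ifs <;> omega

theorem len_le_code (Γ : List Fml) : (strs Γ).length ≤ code Γ := by
  have := len_le_foldl (strs Γ) 0
  simpa [code, num] using this

theorem size_encL : ∀ Γ : List Fml, (encL Γ).size ≤ 3 * (strs Γ).length
  | [] => by simp [encL, Tree.size]
  | φ :: Γ => by
    have h1 := size_encL Γ
    have h2 := T9h18.IO.size_enc φ
    have h3 : 4 ≤ (str φ).length := T9h6.BC.sz_pos φ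
    rw [strs_cons_len]
    simp only [encL, Tree.size, sz]
    omega

theorem size_comb' : ∀ n : ℕ, (comb n).size = n
  | 0 => rfl
  | n + 1 => by
    simp only [comb, Tree.size, size_comb' n]
    omega

/-- (M2) brute force -/
theorem mBF : MBF := by
  intro hRun hAll hStr
  obtain ⟨C, hC⟩ := hAll hRun
  refine ⟨3 * C + 3, fun P κ Cs N ν M K hCs hN Γ n href hM hn hK => ?_⟩
  set x := code Γ + n with hx
  have h1 : (encL Γ).size ≤ 3 * code Γ := (size_encL Γ).trans
    (Nat.mul_le_mul_left _ (len_le_code Γ))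
  have h2 : 3 * x + 2 ≤ (x + 2) ^ 3 := by
    have e : (x + 2) ^ 3 = x ^ 3 + 6 * x ^ 2 + 12 * x + 8 := by ring
    rw [e]
    have := Nat.zero_le (x ^ 3)
    have := Nat.zero_le (x ^ 2)
    omega
  have h3 : 3 * x + 2 ≤ K := by
    refine le_trans ?_ hK
    refine h2.trans ?_
    exact Nat.pow_le_pow_right (by omega) (by omega)
  have h4 : pb C ((encL Γ).size + n) ≤ K := by
    refine le_trans ?_ hK
    calc pb C ((encL Γ).size + n) ≤ pb C (3 * x) := pb_le le_rfl (by omega)
      _ = (3 * x + 2) ^ C := rfl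
      _ ≤ ((x + 2) ^ 3) ^ C := Nat.pow_le_pow_left h2 C
      _ = (x + 2) ^ (3 * C) := by rw [← pow_mul]
      _ ≤ (x + 2) ^ (3 * C + 3) := Nat.pow_le_pow_right (by omega) (by omega)
  have hT : ∀ c ∈ clTree ++ clAll, c ∈ Cs := by
    intro c hc
    refine hCs c ?_
    simp only [clTree, clsB, List.mem_append] at hc ⊢
    tauto
  obtain ⟨a1, a2⟩ := hC Cs N ν M K hT hN
  obtain ⟨_, _, _, _, b1⟩ := hStr P κ Cs N ν M K hCs hN
  have e1 := a1 (encL Γ) n (href Γ rfl) h4
  have e2 := a2 n hn (by omega)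
  have e3 := b1 Γ hM (by omega)
  have hA : ∀ c ∈ clAll, c ∈ Cs := fun c hc => hT c (List.mem_append_right _ hc)
  have l0 : ∀ a ≤ M, a < N.length := fun a ha => lt_of_le_of_lt ha hN.numlt
  have lE : ν (encL Γ) < N.length := hN.lt _ (by omega)
  have lC : ν (comb n) < N.length := hN.lt _ (by rw [size_comb']; omega)
  have lN : ν .nil < N.length := hN.lt _ (by simp [Tree.size])
  exact T9h58.IO.stp (hA _ (List.mem_of_getElem? (l := clAll) (i := 7) rfl))
    [0, ν (encL Γ), code Γ, n, ν (comb n), ν .nil] (l0 0 (Nat.zero_le _))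
    (T9h58.IO.fc (l0 0 (Nat.zero_le _)) (T9h58.IO.fc lE (T9h58.IO.fc (l0 _ hM)
      (T9h58.IO.fc (l0 _ hn) (T9h58.IO.fc lC (T9h58.IO.fc lN T9h58.IO.fn))))))
    (T9h58.IO.fc (Der.base hN.zero) (T9h58.IO.fc e3 (T9h58.IO.fc e2
      (T9h58.IO.fc (Der.base hN.nil) (T9h58.IO.fc e1 T9h58.IO.fn)))))

end Pool.Agent.T9h71.IO
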